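import Mathlib
import Pool.Agent.W188.GP.Stm
import Pool.Agent.W338.QS.Line

set_option autoImplicit false

/-! GP-FIN: comparison of the continuous and the discrete moments. -/

open Complex MeasureTheory Set Filter Topology

namespace Pool.Agent.W933.GP

open Pool.Agent.W188.GP Pool.Agent.W188.QS

theorem ZZ_cont : Continuous ZZ := by
  unfold ZZ
  apply Continuous.norm
  rw [continuous_iff_continuousAt]
  intro t
  have h : cp t ≠ 1 := by
    intro h
    have := congrArg Complex.re h
    simp [cp] at this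
  have h1 : ContinuousAt riemannZeta (cp t) := (differentiableAt_riemannZeta h).continuousAt
  have h2 : ContinuousAt cp t := by unfold cp; fun_prop
  exact ContinuousAt.comp (f := cp) (g := riemannZeta) h1 h2

theorem gp_fin (h1 : StTau) (h2 : StLL) (h3 : StCo) (h4 : StLow) : StFin := by
  intro p hp
  obtain ⟨C0, T1, hC0, hLL⟩ := h2 p hp
  obtain ⟨-, -, hlc, hl1, -, -, -, -, -, -, -, hlam, -⟩ := h1
  have hfc : Continuous fun t => ZZ t ^ p := ZZ_cont.rpow_const fun _ => Or.inr (by linarith)
  have hf0 : ∀ t, 0 ≤ ZZ t ^ p := fun t => Real.rpow_nonneg (norm_nonneg _) _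
  have hgc : Continuous fun t => ZZ t ^ p * lamE t := hfc.mul hlc
  have hpi := Real.pi_pos
  have hev : ∀ᶠ T : ℝ in atTop, 200 ≤ T ∧ T1 ≤ T ∧
      (8 * Real.pi * C0 * T ≤ ∫ t in T..(8 * T), ZZ t ^ p) ∧
      (1 * T ≤ ∫ t in T..(8 * T), ZZ t ^ p) ∧
      (2 * (Real.log (2 * Real.pi) + 1) ≤ Real.log T) :=
    (eventually_ge_atTop 200).and ((eventually_ge_atTop T1).and ((h4 p hp.le _).and
      ((h4 p hp.le 1).and (Real.tendsto_log_atTop.eventually_ge_atTop _))))
  obtain ⟨T0, hT0⟩ := eventually_atTop.1 hev
  refine ⟨8 * Real.pi * C0, T0, by positivity, fun T γ hT => ?_⟩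
  obtain ⟨hT200, hTT1, hK, hK1, hlog⟩ := hT0 T hT
  have hT00 : 0 < T := by linarith
  have hLpos : 0 < Real.log T := Real.log_pos (by linarith)
  -- bounds for lamE
  have hlow : ∀ t, T ≤ t → Real.log T ≤ 2 * lamE t := by
    intro t ht
    have h50 := (Pool.Agent.W338.QS.qs_line.1 t (by linarith)).2.1
    have h5 := (abs_le.1 h50).1
    rw [(hlam t (by linarith)).1]
    have h6 : Real.log (t / (2 * Real.pi)) = Real.log t - Real.log (2 * Real.pi) :=
      Real.log_div (by linarith) (by positivity)
    have h7 : Real.log T ≤ Real.log t := Real.log_le_log hT00 ht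
    have h8 : 14 / t ≤ 1 := by
      rw [div_le_one (by linarith)]
      linarith
    linarith
  have hupp : ∀ t, T / 2 ≤ t → t ≤ 16 * T → lamE t ≤ 2 * Real.log T := by
    intro t ht1 ht2
    have h5 := (hlam t (by linarith)).2
    have h6 : Real.log t ≤ Real.log (16 * T) := Real.log_le_log (by linarith) ht2
    have h7 : Real.log (16 * T) = Real.log 16 + Real.log T :=
      Real.log_mul (by norm_num) (by linarith)
    have h8 : Real.log 16 ≤ Real.log T := Real.log_le_log (by norm_num) (by linarith)
    linarith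
  have hint : ∀ a b : ℝ, IntervalIntegrable (fun t => ZZ t ^ p) volume a b := fun a b =>
    hfc.intervalIntegrable a b
  have hint' : ∀ a b : ℝ, IntervalIntegrable (fun t => ZZ t ^ p * lamE t) volume a b := fun a b =>
    hgc.intervalIntegrable a b
  constructor
  · -- (a)
    obtain ⟨hi, he⟩ := h3 (fun t => ZZ t ^ p) T (8 * T) hfc (by linarith) (by linarith)
    have hle : ∫ γ' in (0 : ℝ)..1, DD p γ' T (8 * T) ≤
        C0 * (DD p γ (T / 2) (16 * T) + T * Real.log T) := by
      have h5 : ∫ γ' in (0 : ℝ)..1, DD p γ' T (8 * T) ≤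
          ∫ _ in (0 : ℝ)..1, C0 * (DD p γ (T / 2) (16 * T) + T * Real.log T) :=
        intervalIntegral.integral_mono_on zero_le_one hi intervalIntegrable_const
          fun γ' _ => hLL T γ γ' hTT1
      simpa using h5
    have he' : ∫ γ' in (0 : ℝ)..1, DD p γ' T (8 * T) =
        1 / (2 * Real.pi) * ∫ t in T..(8 * T), ZZ t ^ p * lamE t := he
    have h6 : Real.log T * ∫ t in T..(8 * T), ZZ t ^ p ≤ 2 * ∫ t in T..(8 * T), ZZ t ^ p * lamE t := by
      rw [← intervalIntegral.integral_const_mul, ← intervalIntegral.integral_const_mul]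
      apply intervalIntegral.integral_mono_on (by linarith) ((hint _ _).const_mul _)
        ((hint' _ _).const_mul _)
      intro t ht
      have := hlow t ht.1
      nlinarith [hf0 t]
    set I := ∫ t in T..(8 * T), ZZ t ^ p with hI
    set D := DD p γ (T / 2) (16 * T) with hD
    have h7 : ∫ t in T..(8 * T), ZZ t ^ p * lamE t =
        2 * Real.pi * ∫ γ' in (0 : ℝ)..1, DD p γ' T (8 * T) := by
      rw [he']
      field_simp
    rw [h7] at h6
    have h8 : Real.log T * I ≤ 4 * Real.pi * (C0 * (D + T * Real.log T)) := by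
      have : 2 * (2 * Real.pi * ∫ γ' in (0 : ℝ)..1, DD p γ' T (8 * T)) ≤
          4 * Real.pi * (C0 * (D + T * Real.log T)) := by
        have := mul_le_mul_of_nonneg_left hle (by positivity : (0 : ℝ) ≤ 4 * Real.pi)
        linarith
      linarith
    have h9 : (8 * Real.pi * C0 * T) * Real.log T ≤ I * Real.log T :=
      mul_le_mul_of_nonneg_right hK hLpos.le
    nlinarith
  · -- (b)
    obtain ⟨hi, he⟩ := h3 (fun t => ZZ t ^ p) (T / 2) (16 * T) hfc (by linarith) (by linarith)
    have he' : ∫ γ' in (0 : ℝ)..1, DD p γ' (T / 2) (16 * T) =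
        1 / (2 * Real.pi) * ∫ t in (T / 2)..(16 * T), ZZ t ^ p * lamE t := he
    have hi0 : IntervalIntegrable (fun γ' => DD p γ' (T / 2) (16 * T)) volume 0 1 := hi
    have hle : DD p γ T (8 * T) ≤
        C0 * ((∫ γ' in (0 : ℝ)..1, DD p γ' (T / 2) (16 * T)) + T * Real.log T) := by
      have hi' : IntervalIntegrable (fun γ' => C0 * (DD p γ' (T / 2) (16 * T) + T * Real.log T))
          volume 0 1 := (IntervalIntegrable.add hi intervalIntegrable_const).const_mul C0
      have h5 : ∫ _ in (0 : ℝ)..1, DD p γ T (8 * T) ≤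
          ∫ γ' in (0 : ℝ)..1, C0 * (DD p γ' (T / 2) (16 * T) + T * Real.log T) :=
        intervalIntegral.integral_mono_on zero_le_one intervalIntegrable_const hi'
          fun γ' _ => hLL T γ' γ hTT1
      rw [intervalIntegral.integral_const_mul, intervalIntegral.integral_add hi0
        intervalIntegrable_const] at h5
      simpa using h5
    have h6 : ∫ t in (T / 2)..(16 * T), ZZ t ^ p * lamE t ≤
        2 * Real.log T * ∫ t in (T / 2)..(16 * T), ZZ t ^ p := by
      rw [← intervalIntegral.integral_const_mul]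
      apply intervalIntegral.integral_mono_on (by linarith) (hint' _ _) ((hint _ _).const_mul _)
      intro t ht
      have := hupp t ht.1 ht.2
      nlinarith [hf0 t]
    have h7 : ∫ t in T..(8 * T), ZZ t ^ p ≤ ∫ t in (T / 2)..(16 * T), ZZ t ^ p := by
      apply intervalIntegral.integral_mono_interval (by linarith) (by linarith) (by linarith)
        (ae_of_all _ hf0) (hint _ _)
    set J := ∫ t in (T / 2)..(16 * T), ZZ t ^ p with hJ
    have hTJ : T ≤ J := by linarith
    have h8 : T * Real.log T ≤ Real.log T * J := by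
      rw [mul_comm]
      exact mul_le_mul_of_nonneg_left hTJ hLpos.le
    have hJL : 0 ≤ Real.log T * J := mul_nonneg hLpos.le (by linarith)
    have h9 : 1 / (2 * Real.pi) * ∫ t in (T / 2)..(16 * T), ZZ t ^ p * lamE t ≤ Real.log T * J := by
      have h10 : 1 / (2 * Real.pi) * ∫ t in (T / 2)..(16 * T), ZZ t ^ p * lamE t ≤
          1 / (2 * Real.pi) * (2 * Real.log T * J) :=
        mul_le_mul_of_nonneg_left h6 (by positivity)
      refine h10.trans ?_
      have h11 : 1 / (2 * Real.pi) * (2 * Real.log T * J) = (Real.log T * J) / Real.pi := by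
        field_simp
      rw [h11]
      exact div_le_self hJL (by linarith [Real.pi_gt_three])
    rw [he'] at hle
    have h12 : C0 * (1 / (2 * Real.pi) * (∫ t in (T / 2)..(16 * T), ZZ t ^ p * lamE t) +
        T * Real.log T) ≤ C0 * (Real.log T * J + Real.log T * J) :=
      mul_le_mul_of_nonneg_left (add_le_add h9 h8) hC0.le
    have h13 : C0 * (Real.log T * J + Real.log T * J) ≤ 8 * Real.pi * C0 * (Real.log T * J) := by
      have h14 : 0 ≤ C0 * (Real.log T * J) := by positivity
      nlinarith [Real.pi_gt_three]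
    linarith

end Pool.Agent.W933.GP
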